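import Pool.Agent.H37.CPX.Targets
import Pool.Agent.H13.MO.AMOM

/-! Row KHI of `cpx_modules` (helper24). -/

namespace Pool.Agent.H24.CPX

open Finset Pool.Agent.H37.CPX

/-- `true ↦ 0`, `false ↦ 1` -/
def eqv : Bool ≃ ZMod 2 where
  toFun c := if c then 0 else 1
  invFun a := decide (a = 0)
  left_inv c := by cases c <;> simp
  right_inv a := by
    revert a
    decide

lemma sgn_eqv (c : Bool) : sgn (eqv c) = Pool.Agent.H51.MO.sg c := by
  cases c
  · have : (1 : ZMod 2) ≠ 0 := by decide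
    simp [eqv, sgn, Pool.Agent.H51.MO.sg]
  · simp [eqv, sgn, Pool.Agent.H51.MO.sg]

lemma key (b q : ℕ) :
    ∑ s : Fin b → ZMod 2, (∑ h, sgn (s h)) ^ (2 * q) ≤ 2 ^ b * (8 * q * b : ℝ) ^ q := by
  have h := Pool.Agent.H13.MO.pf_AMOM b q
  refine le_trans (le_of_eq ?_) h
  symm
  refine Fintype.sum_equiv (Equiv.arrowCongr (Equiv.refl (Fin b)) eqv) _ _ ?_
  intro x
  have : ∀ i, sgn ((Equiv.arrowCongr (Equiv.refl (Fin b)) eqv) x i) =
      Pool.Agent.H51.MO.sg (x i) := by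
    intro i
    simp only [Equiv.arrowCongr_apply, Equiv.refl_symm, Equiv.coe_refl, Function.comp_apply, id_eq]
    exact sgn_eqv (x i)
  rw [Finset.sum_congr rfl fun i _ => this i]

theorem pf_KHI : S_KHI := by
  intro P hP
  obtain ⟨b, hb⟩ : ∃ b, b = P ^ 16 := ⟨_, rfl⟩
  have h8 : Even (P ^ 8) := hP.pow_of_ne_zero (by norm_num)
  obtain ⟨q, hq⟩ := h8
  have hq2 : P ^ 8 = 2 * q := by omega
  have hr : (P : ℝ) ^ 8 = 2 * q := by exact_mod_cast hq2
  have hbr : (b : ℝ) = (P : ℝ) ^ 16 := by rw [hb]; push_cast; rfl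
  have e : (8 * q * b : ℝ) = (2 * (P : ℝ) ^ 12) ^ 2 := by
    rw [hbr]
    have : (8 : ℝ) * q = 4 * (P : ℝ) ^ 8 := by rw [hr]; ring
    rw [this]
    ring
  have h := key b q
  rw [e, ← pow_mul] at h
  rw [← hb, hq2]
  exact h

end Pool.Agent.H24.CPX
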