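import Pool.Agent.H37.CPX.Targets

/-! Row SUMU of `cpx_modules` (helper24). -/

namespace Pool.Agent.H24.CPX

open Finset Pool.Agent.H37.CPX

lemma sum_all (N : ℕ) (t : ℝ) :
    ∑ U : Finset (Fin N), t ^ U.card = (1 + t) ^ N := by
  have h := Finset.sum_pow_mul_eq_add_pow t 1 (univ : Finset (Fin N))
  simp only [one_pow, mul_one, Finset.card_univ, Fintype.card_fin] at h
  rw [add_comm, ← h]
  rw [Finset.powerset_univ]

lemma sum_nonempty (N : ℕ) (t : ℝ) :
    ∑ U ∈ univ.filter (fun U : Finset (Fin N) => U.Nonempty), t ^ U.card = (1 + t) ^ N - 1 := by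
  have h := sum_all N t
  rw [← Finset.sum_filter_add_sum_filter_not univ (fun U : Finset (Fin N) => U.Nonempty)] at h
  have h2 : ∑ U ∈ univ.filter (fun U : Finset (Fin N) => ¬ U.Nonempty), t ^ U.card = 1 := by
    have : univ.filter (fun U : Finset (Fin N) => ¬ U.Nonempty) = {∅} := by
      ext U
      simp [Finset.not_nonempty_iff_eq_empty]
    rw [this]
    simp
  linarith

lemma bound (N : ℕ) (t : ℝ) (ht : 0 ≤ t) (h1 : (N : ℝ) * t < 1) :
    (1 + t) ^ N - 1 ≤ N * t / (1 - N * t) := by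
  rcases Nat.eq_zero_or_pos N with h0 | hN
  · subst h0
    simp
  have hN1 : (1 : ℝ) ≤ N := by exact_mod_cast hN
  have ht1 : t < 1 := by nlinarith
  have hb : 1 - (N : ℝ) * t ≤ (1 - t) ^ N := by
    have := one_add_mul_le_pow (a := -t) (by linarith) N
    have e1 : (1 : ℝ) + (N : ℝ) * (-t) = 1 - N * t := by ring
    have e2 : (1 : ℝ) + (-t) = 1 - t := by ring
    rw [e1, e2] at this
    exact this
  have hc : (1 + t) ^ N * (1 - t) ^ N ≤ 1 := by
    rw [← mul_pow]
    apply pow_le_one₀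
    · nlinarith
    · nlinarith
  have hpos : 0 < 1 - (N : ℝ) * t := by linarith
  have hd : (1 + t) ^ N * (1 - N * t) ≤ 1 :=
    (mul_le_mul_of_nonneg_left hb (by positivity)).trans hc
  rw [le_div_iff₀ hpos]
  nlinarith

theorem pf_SUMU : S_SUMU := by
  intro N z hN hz
  have hN1 : (1 : ℝ) ≤ N := by exact_mod_cast hN
  have hz1 : (1 : ℝ) ≤ z := by exact_mod_cast hz
  have hN0 : (0 : ℝ) < N := by linarith
  have hz0 : (0 : ℝ) < z := by linarith
  constructor
  · rw [sum_nonempty]
    have e : (N : ℝ) * (1 / (8 * (N : ℝ))) = 1 / 8 := by field_simp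
    have := bound N (1 / (8 * (N : ℝ))) (by positivity) (by rw [e]; norm_num)
    rw [e] at this
    linarith
  · rw [sum_nonempty]
    have e : (N : ℝ) * (1 / (64 * (N : ℝ) * z)) = 1 / (64 * z) := by field_simp
    have h64 : (1 : ℝ) / (64 * z) ≤ 1 / 64 := by
      apply one_div_le_one_div_of_le (by norm_num) (by linarith)
    have := bound N (1 / (64 * (N : ℝ) * z)) (by positivity) (by rw [e]; linarith)
    rw [e] at this
    refine this.trans ?_
    have hpos : 0 < 1 - 1 / (64 * (z : ℝ)) := by linarith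
    rw [div_le_iff₀ hpos]
    have hzi : (1 : ℝ) / z > 0 := by positivity
    have e1 : (1 : ℝ) / (64 * z) = (1 / z) / 64 := by field_simp
    have e2 : (1 : ℝ) / (32 * z) = (1 / z) / 32 := by field_simp
    rw [e1] at h64 ⊢
    rw [e2]
    nlinarith

end Pool.Agent.H24.CPX
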